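import Mathlib
import Pool.Agent.Opening25

set_option autoImplicit false

namespace Pool.Agent.Results.MP_ec11a7_an.OpeningConstant

universe u

/-- The density character of a topological space: the smallest cardinality of a dense subset. -/
noncomputable def densityChar (X : Type u) [TopologicalSpace X] : Cardinal.{u} :=
  sInf {c : Cardinal.{u} | ∃ s : Set X, Dense s ∧ Cardinal.mk s = c}

/-- The opening (gap) of two linear subspaces, not assumed closed. -/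
noncomputable def opening {𝕜 : Type} [RCLike 𝕜] {E : Type u} [NormedAddCommGroup E]
    [NormedSpace 𝕜 E] (G₁ G₂ : Submodule 𝕜 E) : ℝ :=
  max (⨆ x : {x : E // x ∈ G₁ ∧ ‖x‖ = 1}, Metric.infDist (x : E) (G₂ : Set E))
    (⨆ y : {y : E // y ∈ G₂ ∧ ‖y‖ = 1}, Metric.infDist (y : E) (G₁ : Set E))

section

variable {𝕜 : Type} [RCLike 𝕜] {E : Type u} [NormedAddCommGroup E] [NormedSpace 𝕜 E]

lemma half_bound (G₁ G₂ : Submodule 𝕜 E) (θ : ℝ)
    (h : (⨆ x : {x : E // x ∈ G₁ ∧ ‖x‖ = 1}, Metric.infDist (x : E) (G₂ : Set E)) ≤ θ) :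
    ∀ x ∈ G₁, Metric.infDist x (G₂ : Set E) ≤ θ * ‖x‖ := by
  intro x hx
  by_cases h0 : x = 0
  · rw [h0, norm_zero, mul_zero]
    exact (Metric.infDist_zero_of_mem (G₂.zero_mem)).le
  · have hn : ‖x‖ ≠ 0 := norm_ne_zero_iff.mpr h0
    have hn𝕜 : ((‖x‖ : ℝ) : 𝕜) ≠ 0 := by exact_mod_cast hn
    have hbdd : BddAbove (Set.range
        (fun x : {x : E // x ∈ G₁ ∧ ‖x‖ = 1} => Metric.infDist (x : E) (G₂ : Set E))) := by
      refine ⟨1, ?_⟩
      rintro _ ⟨y, rfl⟩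
      have := Metric.infDist_le_dist_of_mem (x := (y : E)) (G₂.zero_mem)
      rw [dist_zero_right, y.2.2] at this
      exact this
    have hu1 : ‖((‖x‖ : ℝ) : 𝕜)⁻¹ • x‖ = 1 := by
      rw [norm_smul, norm_inv, RCLike.norm_ofReal, abs_of_nonneg (norm_nonneg _),
        inv_mul_cancel₀ hn]
    have hu2 : Metric.infDist (((‖x‖ : ℝ) : 𝕜)⁻¹ • x) (G₂ : Set E) ≤ θ :=
      le_trans (le_ciSup hbdd ⟨((‖x‖ : ℝ) : 𝕜)⁻¹ • x, G₁.smul_mem _ hx, hu1⟩) h
    have hne : (G₂ : Set E).Nonempty := ⟨0, G₂.zero_mem⟩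
    refine le_of_forall_pos_lt_add (fun ε hε => ?_)
    have hpos : 0 < ‖x‖ := lt_of_le_of_ne (norm_nonneg _) (Ne.symm hn)
    have h3 : Metric.infDist (((‖x‖ : ℝ) : 𝕜)⁻¹ • x) (G₂ : Set E) < θ + ε / ‖x‖ :=
      lt_of_le_of_lt hu2 (by have := div_pos hε hpos; linarith)
    obtain ⟨g, hg, hg'⟩ := (Metric.infDist_lt_iff hne).mp h3
    have h4 := Metric.infDist_le_dist_of_mem (x := x) (G₂.smul_mem ((‖x‖ : ℝ) : 𝕜) hg)
    have h5 : dist x (((‖x‖ : ℝ) : 𝕜) • g) = ‖x‖ * dist (((‖x‖ : ℝ) : 𝕜)⁻¹ • x) g := by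
      rw [dist_eq_norm, dist_eq_norm]
      have : x - ((‖x‖ : ℝ) : 𝕜) • g = ((‖x‖ : ℝ) : 𝕜) • (((‖x‖ : ℝ) : 𝕜)⁻¹ • x - g) := by
        rw [smul_sub, smul_smul, mul_inv_cancel₀ hn𝕜, one_smul]
      rw [this, norm_smul, RCLike.norm_ofReal, abs_of_nonneg (norm_nonneg _)]
    rw [h5] at h4
    have h6 : ‖x‖ * dist (((‖x‖ : ℝ) : 𝕜)⁻¹ • x) g < ‖x‖ * (θ + ε / ‖x‖) := by gcongr
    have h7 : ‖x‖ * (θ + ε / ‖x‖) = θ * ‖x‖ + ε := by field_simp
    linarith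

lemma aleph0_le (G : Submodule 𝕜 E) (hG : G ≠ ⊥) (D : Set G) (hD : Dense D) :
    Cardinal.aleph0 ≤ Cardinal.mk D := by
  by_contra hcon
  push Not at hcon
  have hfin : D.Finite := Cardinal.lt_aleph0_iff_set_finite.mp hcon
  have huniv : D = Set.univ := by
    have := hD.closure_eq
    rwa [hfin.isClosed.closure_eq] at this
  obtain ⟨x, hx, hx0⟩ := Submodule.exists_mem_ne_zero_of_ne_bot hG
  have hx0' : (⟨x, hx⟩ : G) ≠ 0 := fun h => hx0 (congrArg Subtype.val h)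
  have : Infinite G := Infinite.of_injective _ (smul_left_injective 𝕜 hx0')
  exact Set.infinite_univ (huniv ▸ hfin)

lemma density_le (G₁ G₂ : Submodule 𝕜 E) (hG : G₁ ≠ ⊥) (θ : ℝ) (hθ0 : 0 ≤ θ)
    (hθ : θ < 51/100)
    (hA : ∀ y ∈ G₂, Metric.infDist y (G₁ : Set E) ≤ θ * ‖y‖)
    (hB : ∀ x ∈ G₁, Metric.infDist x (G₂ : Set E) ≤ θ * ‖x‖) :
    densityChar G₂ ≤ densityChar G₁ := by
  have hmem : densityChar G₁ ∈ {c : Cardinal.{u} | ∃ s : Set G₁, Dense s ∧ Cardinal.mk s = c} :=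
    csInf_mem ⟨Cardinal.mk (Set.univ : Set G₁), Set.univ, dense_univ, rfl⟩
  obtain ⟨D, hDd, hDc⟩ := hmem
  have hinf := aleph0_le G₁ hG D hDd
  let _ : NormedSpace ℝ E := NormedSpace.restrictScalars ℝ 𝕜 E
  let H₁ : Submodule ℝ E :=
    { carrier := G₁
      add_mem' := fun ha hb => G₁.add_mem ha hb
      zero_mem' := G₁.zero_mem
      smul_mem' := fun c x hx => G₁.smul_mem (algebraMap ℝ 𝕜 c) hx }
  let H₂ : Submodule ℝ E :=
    { carrier := G₂
      add_mem' := fun ha hb => G₂.add_mem ha hb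
      zero_mem' := G₂.zero_mem
      smul_mem' := fun c x hx => G₂.smul_mem (algebraMap ℝ 𝕜 c) hx }
  obtain ⟨T, hT1, hT2, hT3⟩ := Pool.Agent.Opening25.cover H₁ H₂ θ hθ0 hθ hA hB
    ((↑) '' D : Set E) (by rintro _ ⟨x, _, rfl⟩; exact x.2) (Subtype.dense_iff.mp hDd)
  have hDc' : Cardinal.mk ((↑) '' D : Set E) = Cardinal.mk D :=
    Cardinal.mk_image_eq Subtype.val_injective
  rw [hDc', max_eq_left hinf, hDc] at hT3
  have hT1' : T ⊆ (G₂ : Set E) := hT1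
  have hT2' : (G₂ : Set E) ⊆ closure T := hT2
  let T' : Set G₂ := (↑) ⁻¹' T
  have hT' : Dense T' := by
    rw [Subtype.dense_iff]
    intro x hx
    refine closure_mono ?_ (hT2' hx)
    intro t ht
    exact ⟨⟨t, hT1' ht⟩, ht, rfl⟩
  have hc : Cardinal.mk T' ≤ Cardinal.mk T :=
    Cardinal.mk_preimage_of_injective _ _ Subtype.val_injective
  exact le_trans (csInf_le' ⟨T', hT', rfl⟩) (le_trans hc hT3)

end

/-- There is a constant `α > 1/2` such that, in every real or complex normed space, two nonzero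
linear subspaces (not assumed closed) whose opening is less than `α` have the same density
character. -/
theorem result :
    ∃ α : ℝ, 1 / 2 < α ∧
      ∀ (𝕜 : Type) [RCLike 𝕜] (E : Type u) [NormedAddCommGroup E] [NormedSpace 𝕜 E]
        (G₁ G₂ : Submodule 𝕜 E), G₁ ≠ ⊥ → G₂ ≠ ⊥ → opening G₁ G₂ < α →
        densityChar G₁ = densityChar G₂ := by
  refine ⟨51/100, by norm_num, ?_⟩
  intro 𝕜 _ E _ _ G₁ G₂ h1 h2 hθ
  have hA := half_bound G₂ G₁ (opening G₁ G₂) (le_max_right _ _)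
  have hB := half_bound G₁ G₂ (opening G₁ G₂) (le_max_left _ _)
  have hθ0 : 0 ≤ opening G₁ G₂ := by
    refine le_trans ?_ (le_max_left _ _)
    exact Real.iSup_nonneg (fun x => Metric.infDist_nonneg)
  exact le_antisymm (density_le G₂ G₁ h2 _ hθ0 hθ hB hA) (density_le G₁ G₂ h1 _ hθ0 hθ hA hB)

end Pool.Agent.Results.MP_ec11a7_an.OpeningConstant
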